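import Mathlib

/-!
# Invariant mean on a non empty invariant set, and the cubic polynomial argument

The core of THEOREM LAMBDA (MP_5ee2d0): no point of positive Lelong number.
-/

namespace NPMean

open Filter Topology

/-- A real function is bounded. -/
def Bdd {Z : Type*} (h : Z → ℝ) : Prop := ∃ C : ℝ, ∀ x, |h x| ≤ C

theorem Bdd.add {Z : Type*} {h h' : Z → ℝ} (a : Bdd h) (b : Bdd h') :
    Bdd (fun x => h x + h' x) := by
  obtain ⟨C, hC⟩ := a
  obtain ⟨D, hD⟩ := b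
  exact ⟨C + D, fun x => (abs_add_le _ _).trans (add_le_add (hC x) (hD x))⟩

theorem Bdd.mul_left {Z : Type*} {h : Z → ℝ} (c : ℝ) (a : Bdd h) :
    Bdd (fun x => c * h x) := by
  obtain ⟨C, hC⟩ := a
  refine ⟨|c| * C, fun x => ?_⟩
  rw [abs_mul]
  exact mul_le_mul_of_nonneg_left (hC x) (abs_nonneg _)

theorem Bdd.comp {Z W : Type*} {h : Z → ℝ} (g : W → Z) (a : Bdd h) :
    Bdd (fun x => h (g x)) := by
  obtain ⟨C, hC⟩ := a
  exact ⟨C, fun x => hC _⟩

theorem Bdd.const {Z : Type*} (c : ℝ) : Bdd (fun _ : Z => c) := ⟨|c|, fun _ => le_rfl⟩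

/-- A bounded sequence has a limit along an ultrafilter. -/
theorem exists_lim (U : Ultrafilter ℕ) (a : ℕ → ℝ) (h : ∃ C : ℝ, ∀ n, |a n| ≤ C) :
    ∃ l : ℝ, Tendsto a U (𝓝 l) := by
  obtain ⟨C, hC⟩ := h
  have hcomp : IsCompact (Set.Icc (-C) C) := isCompact_Icc
  have hmem : Set.Icc (-C) C ∈ (U.map a : Filter ℝ) := by
    have hall : a ⁻¹' Set.Icc (-C) C = Set.univ := by
      ext n
      simpa [Set.mem_Icc] using abs_le.mp (hC n)
    change a ⁻¹' Set.Icc (-C) C ∈ (U : Filter ℕ)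
    rw [hall]
    exact univ_mem
  obtain ⟨l, _, hl⟩ := hcomp.ultrafilter_le_nhds (U.map a) (le_principal_iff.mpr hmem)
  exact ⟨l, hl⟩

/-- Birkhoff averages of `h` along the forward orbit of `x0`. -/
noncomputable def avg {Z : Type*} (γ : Z → Z) (x0 : Z) (h : Z → ℝ) (N : ℕ) : ℝ :=
  (∑ j ∈ Finset.range (N + 1), h (γ^[j] x0)) / (N + 1)

theorem avg_add {Z : Type*} (γ : Z → Z) (x0 : Z) (h h' : Z → ℝ) (N : ℕ) :
    avg γ x0 (fun x => h x + h' x) N = avg γ x0 h N + avg γ x0 h' N := by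
  unfold avg
  rw [Finset.sum_add_distrib, add_div]

theorem avg_mul {Z : Type*} (γ : Z → Z) (x0 : Z) (c : ℝ) (h : Z → ℝ) (N : ℕ) :
    avg γ x0 (fun x => c * h x) N = c * avg γ x0 h N := by
  unfold avg
  rw [← Finset.mul_sum, mul_div_assoc]

theorem avg_le {Z : Type*} (γ : Z → Z) (x0 : Z) (h : Z → ℝ) (C : ℝ) (hC : ∀ x, h x ≤ C)
    (N : ℕ) : avg γ x0 h N ≤ C := by
  unfold avg
  have hN : (0 : ℝ) < (N : ℝ) + 1 := by positivity
  rw [div_le_iff₀ hN]
  calc ∑ j ∈ Finset.range (N + 1), h (γ^[j] x0) ≤ ∑ _j ∈ Finset.range (N + 1), C :=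
        Finset.sum_le_sum fun j _ => hC _
    _ = C * ((N : ℝ) + 1) := by
        rw [Finset.sum_const, Finset.card_range, nsmul_eq_mul]
        push_cast
        ring

theorem avg_bdd {Z : Type*} (γ : Z → Z) (x0 : Z) (h : Z → ℝ) (hb : Bdd h) :
    ∃ C : ℝ, ∀ N, |avg γ x0 h N| ≤ C := by
  obtain ⟨C, hC⟩ := hb
  refine ⟨C, fun N => abs_le.mpr ⟨?_, avg_le γ x0 h C (fun x => (abs_le.mp (hC x)).2) N⟩⟩
  have h1 := avg_le γ x0 (fun x => (-1 : ℝ) * h x) C
    (fun x => by have := (abs_le.mp (hC x)).1; linarith) N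
  rw [avg_mul] at h1
  linarith

theorem avg_shift {Z : Type*} (γ : Z → Z) (x0 : Z) (h : Z → ℝ) (N : ℕ) :
    avg γ x0 (fun x => h (γ x)) N - avg γ x0 h N =
      (h (γ^[N + 1] x0) - h x0) / (N + 1) := by
  unfold avg
  rw [← sub_div]
  congr 1
  have h1 : ∀ j, h (γ (γ^[j] x0)) = h (γ^[j + 1] x0) := fun j => by
    rw [Function.iterate_succ_apply']
  simp only [h1]
  rw [Finset.sum_range_succ (fun j => h (γ^[j + 1] x0)) N,
    Finset.sum_range_succ' (fun j => h (γ^[j] x0)) N]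
  simp only [Function.iterate_zero, id_eq]
  ring

/-- **Invariant mean**: on a non empty set with a self map there is a normalised, monotone,
linear, invariant functional on bounded functions. -/
theorem exists_mean {Z : Type*} [hZ : Nonempty Z] (γ : Z → Z) :
    ∃ m : (Z → ℝ) → ℝ,
      (∀ h h', Bdd h → Bdd h' → m (fun x => h x + h' x) = m h + m h') ∧
      (∀ c h, Bdd h → m (fun x => c * h x) = c * m h) ∧
      (∀ h C, Bdd h → (∀ x, h x ≤ C) → m h ≤ C) ∧
      (∀ h, Bdd h → m (fun x => h (γ x)) = m h) := by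
  classical
  obtain ⟨x0⟩ := hZ
  let U : Ultrafilter ℕ := Filter.hyperfilter ℕ
  have key : ∀ h : Z → ℝ, Bdd h → ∃ l : ℝ, Tendsto (avg γ x0 h) U (𝓝 l) :=
    fun h hb => exists_lim U _ (avg_bdd γ x0 h hb)
  let m : (Z → ℝ) → ℝ := fun h => if hb : Bdd h then (key h hb).choose else 0
  have hm : ∀ h, Bdd h → Tendsto (avg γ x0 h) U (𝓝 (m h)) := fun h hb => by
    have := (key h hb).choose_spec
    simpa only [m, dif_pos hb] using this
  have hne : (U : Filter ℕ).NeBot := U.neBot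
  refine ⟨m, fun h h' a b => ?_, fun c h a => ?_, fun h C a hC => ?_, fun h a => ?_⟩
  · have h1 := hm _ (a.add b)
    have h2 := (hm h a).add (hm h' b)
    refine tendsto_nhds_unique h1 (h2.congr fun N => ?_)
    exact (avg_add γ x0 h h' N).symm
  · have h1 := hm _ (a.mul_left c)
    have h2 := (hm h a).const_mul c
    refine tendsto_nhds_unique h1 (h2.congr fun N => ?_)
    exact (avg_mul γ x0 c h N).symm
  · exact le_of_tendsto (hm h a) (Eventually.of_forall fun N => avg_le γ x0 h C hC N)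
  · have h1 := hm _ (a.comp γ)
    have h2 := hm h a
    have hle : (U : Filter ℕ) ≤ atTop := by
      have : (U : Filter ℕ) ≤ cofinite := Filter.hyperfilter_le_cofinite
      rwa [Nat.cofinite_eq_atTop] at this
    have h3 : Tendsto (fun N : ℕ => (h (γ^[N + 1] x0) - h x0) / ((N : ℝ) + 1)) atTop
        (𝓝 0) := by
      obtain ⟨C, hC⟩ := a
      refine squeeze_zero_norm (a := fun N : ℕ => (2 * C) / ((N : ℝ) + 1)) (fun N => ?_) ?_
      · rw [Real.norm_eq_abs, abs_div, abs_of_pos (by positivity : (0 : ℝ) < (N : ℝ) + 1)]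
        refine div_le_div_of_nonneg_right ?_ (by positivity)
        have e1 := abs_le.mp (hC (γ^[N + 1] x0))
        have e2 := abs_le.mp (hC x0)
        exact abs_le.mpr ⟨by linarith [e1.1, e2.2], by linarith [e1.2, e2.1]⟩
      · exact tendsto_const_div_atTop_nhds_zero_nat (2 * C) |>.comp (tendsto_add_atTop_nat 1)
          |>.congr fun N => by simp
    have h4 := (h1.sub h2)
    have h5 : Tendsto (fun N : ℕ => avg γ x0 (fun x => h (γ x)) N - avg γ x0 h N) U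
        (𝓝 0) := (h3.mono_left hle).congr fun N => (avg_shift γ x0 h N).symm
    have h6 := tendsto_nhds_unique h4 h5
    linarith

/-- The closed form of a cubic recursion over the integers. -/
theorem closed_form (E : ℤ → ℝ) (a b c : ℝ) (h0 : E 0 = 0)
    (hE : ∀ k : ℤ, E (k + 1) = a + (k : ℝ) * b + (k : ℝ) ^ 2 * c + E k) (k : ℤ) :
    E k = (k : ℝ) * a + (k : ℝ) * ((k : ℝ) - 1) / 2 * b
      + (k : ℝ) * ((k : ℝ) - 1) * (2 * (k : ℝ) - 1) / 6 * c := by
  induction k using Int.induction_on with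
  | zero => simp [h0]
  | succ i ih =>
    rw [hE, ih]
    push_cast
    ring
  | pred i ih =>
    have h1 := hE (-(i : ℤ) - 1)
    rw [sub_add_cancel] at h1
    have h2 : E (-(i : ℤ) - 1) = E (-(i : ℤ)) - (a + ((-(i : ℤ) - 1 : ℤ) : ℝ) * b
        + ((-(i : ℤ) - 1 : ℤ) : ℝ) ^ 2 * c) := by linarith
    rw [h2, ih]
    push_cast
    ring

/-- A cubic polynomial which is `≤ C k^2` for all integers `k` has leading coefficient zero. -/
theorem cubic_zero (a b c C : ℝ)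
    (h : ∀ k : ℤ, (k : ℝ) * a + (k : ℝ) * ((k : ℝ) - 1) / 2 * b
      + (k : ℝ) * ((k : ℝ) - 1) * (2 * (k : ℝ) - 1) / 6 * c ≤ C * (k : ℝ) ^ 2) : c = 0 := by
  -- both signs of `k`
  have key : ∀ (a b c C : ℝ), (∀ n : ℕ, (n : ℝ) * a + (n : ℝ) ^ 2 * b + (n : ℝ) ^ 3 * c
      ≤ C * (n : ℝ) ^ 2) → c ≤ 0 := by
    intro a b c C hn
    by_contra hc
    push Not at hc
    obtain ⟨n, hn1⟩ := exists_nat_gt ((|a| + |b| + |C|) / c + 1)
    have hpos : (0 : ℝ) ≤ (|a| + |b| + |C|) / c := by positivity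
    have h1 : (1 : ℝ) ≤ n := by linarith
    have h2 : |a| + |b| + |C| < (n : ℝ) * c := by
      have h3 : (|a| + |b| + |C|) / c < n := by linarith
      rwa [div_lt_iff₀ hc] at h3
    have h3 := hn n
    have ha := neg_abs_le a
    have hb := neg_abs_le b
    have hC := le_abs_self C
    have hn2 : (0 : ℝ) < (n : ℝ) ^ 2 := by positivity
    have e1 : (n : ℝ) ^ 3 * c = (n : ℝ) ^ 2 * ((n : ℝ) * c) := by ring
    have e2 : (n : ℝ) ^ 2 * (|a| + |b| + |C|) < (n : ℝ) ^ 2 * ((n : ℝ) * c) :=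
      mul_lt_mul_of_pos_left h2 hn2
    have e3 : -((n : ℝ) ^ 2 * |a|) ≤ (n : ℝ) * a := by
      have : (n : ℝ) * |a| ≤ (n : ℝ) ^ 2 * |a| :=
        mul_le_mul_of_nonneg_right (by nlinarith) (abs_nonneg a)
      nlinarith [abs_nonneg a]
    have e4 : -((n : ℝ) ^ 2 * |b|) ≤ (n : ℝ) ^ 2 * b := by nlinarith
    have e5 : C * (n : ℝ) ^ 2 ≤ |C| * (n : ℝ) ^ 2 := by nlinarith
    nlinarith
  refine le_antisymm ?_ ?_
  · have h1 := key (a - b / 2 + c / 6) (b / 2 - c / 2) (c / 3) C (fun n => by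
      have := h (n : ℤ)
      push_cast at this
      nlinarith)
    linarith
  · have h1 := key (-a + b / 2 - c / 6) (b / 2 - c / 2) (-(c / 3)) C (fun n => by
      have := h (-(n : ℤ))
      push_cast at this
      nlinarith)
    linarith

/-- **Core of Theorem Lambda.** `Z` non empty, `γ` a self map, `u, v, w` bounded on `Z`,
`V (k+1) = v + k (f w) + k² (g u) + V k ∘ γ` for all integers `k`, `V 0 = 0`, every `V k`
bounded, and `V k ≤ C k²` for all integers `k` (both signs).  Then for some `M` and all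
integers `k ≠ 0` there is a point of `Z` at which `V k ≥ -M k²`. -/
theorem not_uniformly_small {Z : Type*} [Nonempty Z] (γ : Z → Z) (u v w : Z → ℝ)
    (hu : Bdd u) (hv : Bdd v) (hw : Bdd w) (V : ℤ → Z → ℝ) (hV : ∀ k, Bdd (V k))
    (V0 : ∀ x, V 0 x = 0)
    (rec : ∀ (k : ℤ) (x : Z), V (k + 1) x = v x + (k : ℝ) * w x + (k : ℝ) ^ 2 * u x
      + V k (γ x))
    (C : ℝ) (le : ∀ (k : ℤ) (x : Z), V k x ≤ C * (k : ℝ) ^ 2) :
    ∃ M : ℝ, ∀ k : ℤ, k ≠ 0 → ∃ x : Z, -(M * (k : ℝ) ^ 2) ≤ V k x := by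
  obtain ⟨m, madd, mmul, mle, minv⟩ := exists_mean γ
  let E : ℤ → ℝ := fun k => m (V k)
  have hE0 : E 0 = 0 := by
    have h1 : V 0 = fun x => (0 : ℝ) * V 0 x := by
      funext x
      rw [V0]
      ring
    change m (V 0) = 0
    rw [h1, mmul 0 (V 0) (hV 0)]
    ring
  have hE : ∀ k : ℤ, E (k + 1) = m v + (k : ℝ) * m w + (k : ℝ) ^ 2 * m u + E k := by
    intro k
    have h1 : V (k + 1) = fun x => (fun x => (fun x => v x + (k : ℝ) * w x) x
        + (k : ℝ) ^ 2 * u x) x + V k (γ x) := by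
      funext x
      exact rec k x
    change m (V (k + 1)) = _
    rw [h1, madd _ _ ((hv.add (hw.mul_left _)).add (hu.mul_left _)) ((hV k).comp γ),
      madd _ _ (hv.add (hw.mul_left _)) (hu.mul_left _), madd _ _ hv (hw.mul_left _),
      mmul _ _ hw, mmul _ _ hu, minv _ (hV k)]
  have hclosed := closed_form E (m v) (m w) (m u) hE0 hE
  have hle : ∀ k : ℤ, E k ≤ C * (k : ℝ) ^ 2 := fun k => mle _ _ (hV k) (le k)
  have hu0 : m u = 0 := cubic_zero (m v) (m w) (m u) C fun k => by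
    rw [← hclosed k]
    exact hle k
  refine ⟨|m v| + |m w| + 1, fun k hk => ?_⟩
  by_contra hno
  push Not at hno
  have h1 : E k ≤ -((|m v| + |m w| + 1) * (k : ℝ) ^ 2) :=
    mle _ _ (hV k) fun x => (hno x).le
  rw [hclosed k, hu0] at h1
  have hk1 : (1 : ℝ) ≤ |(k : ℝ)| := by
    have : (1 : ℤ) ≤ |k| := Int.one_le_abs hk
    have h2 : ((1 : ℤ) : ℝ) ≤ ((|k| : ℤ) : ℝ) := by exact_mod_cast this
    simpa using h2
  have hk2 : |(k : ℝ)| ≤ (k : ℝ) ^ 2 := by
    rw [← sq_abs]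
    nlinarith
  have e1 : -(|m v| * (k : ℝ) ^ 2) ≤ (k : ℝ) * m v := by
    have h2 : |(k : ℝ) * m v| ≤ (k : ℝ) ^ 2 * |m v| := by
      rw [abs_mul]
      exact mul_le_mul_of_nonneg_right hk2 (abs_nonneg _)
    have h3 := neg_abs_le ((k : ℝ) * m v)
    linarith
  have e2 : -(|m w| * (k : ℝ) ^ 2) ≤ (k : ℝ) * ((k : ℝ) - 1) / 2 * m w := by
    have h2 : |(k : ℝ) * ((k : ℝ) - 1) / 2 * m w| ≤ (k : ℝ) ^ 2 * |m w| := by
      rw [abs_mul]
      refine mul_le_mul_of_nonneg_right ?_ (abs_nonneg _)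
      rw [abs_le]
      have h4 := abs_le.mp hk2
      constructor <;> nlinarith [le_abs_self (k : ℝ), neg_abs_le (k : ℝ)]
    have h3 := neg_abs_le ((k : ℝ) * ((k : ℝ) - 1) / 2 * m w)
    linarith
  have hpos : (0 : ℝ) < (k : ℝ) ^ 2 := by nlinarith
  nlinarith

end NPMean
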